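import Mathlib

/-!
# Interface for MP_bc6d74_co (Radon partitions of Gaussian points)

`n = d + 1` throughout, `N = a + b + 1` points: `x : Fin a ⊕ Fin b → ℝ^d` and one extra point `z`.
-/

open MeasureTheory ProbabilityTheory Matrix
open scoped BigOperators ENNReal

namespace Pool.Agent.K1H9.RP

/-- standard normal distribution on `ℝ`. -/
noncomputable def G1 : Measure ℝ := gaussianReal 0 1

/-- i.i.d. standard normal coordinates indexed by `κ`. -/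
noncomputable def gv (κ : Type) [Fintype κ] : Measure (κ → ℝ) := Measure.pi fun _ => G1

/-- independent standard normal points of `ℝ^d` indexed by `κ`. -/
noncomputable def gp (κ : Type) [Fintype κ] (d : ℕ) : Measure (κ → Fin d → ℝ) :=
  Measure.pi fun _ => gv (Fin d)

/-- homogeneous coordinates `(1, x)`. -/
def hom {d : ℕ} (x : Fin d → ℝ) : Fin (d + 1) → ℝ := Fin.cons 1 x

/-- the matrix with rows `(1, x i)`. -/
def BM {d : ℕ} (x : Fin (d + 1) → Fin d → ℝ) : Matrix (Fin (d + 1)) (Fin (d + 1)) ℝ :=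
  Matrix.of fun i => hom (x i)

/-- barycentric coordinates of `z`: `∑ i, bary x z i • hom (x i) = hom z` (if `det ≠ 0`). -/
noncomputable def bary {d : ℕ} (x : Fin (d + 1) → Fin d → ℝ) (z : Fin d → ℝ) : Fin (d + 1) → ℝ :=
  (hom z) ᵥ* (BM x)⁻¹

/-- the affine function (as a covector) with values `h i` at `x i` (if `det ≠ 0`). -/
noncomputable def gco {d : ℕ} (x : Fin (d + 1) → Fin d → ℝ) (h : Fin (d + 1) → ℝ) :
    Fin (d + 1) → ℝ := (BM x)⁻¹ *ᵥ h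

/-- signed distance from the origin of the hyperplane `{(x, h) | h = p 0 + ∑ p (c+1) x c}`. -/
noncomputable def sd {d : ℕ} (p : Fin (d + 1) → ℝ) : ℝ :=
  p 0 / Real.sqrt (1 + ∑ c : Fin d, p c.succ ^ 2)

/-- normal distribution function. -/
noncomputable def Phi (t : ℝ) : ℝ := G1.real (Set.Iic t)

/-- `Φ(-t)^k Φ(t)^(D-k)`. -/
noncomputable def chi (D k : ℕ) (t : ℝ) : ℝ := Phi (-t) ^ k * Phi t ^ (D - k)

/-- first `j` entries negative, the others positive. -/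
def pat {n : ℕ} (j : ℕ) (m : Fin n → ℝ) : Prop :=
  (∀ i : Fin n, (i : ℕ) < j → m i < 0) ∧ (∀ i : Fin n, j ≤ (i : ℕ) → 0 < m i)

/-- the basic quantity `T_j^{(k)}`. -/
noncomputable def TT (d D j k : ℕ) : ℝ :=
  ∫ x : Fin (d + 1) → Fin d → ℝ, ∫ h : Fin (d + 1) → ℝ,
    (gv (Fin d)).real {z | pat j (bary x z)} * chi D k (sd (gco x h)) ∂(gv (Fin (d + 1)))
      ∂(gp (Fin (d + 1)) d)

/-- `z ↦ (I + ββᵀ)^{1/2} z + θ β`. -/
noncomputable def shear {d : ℕ} (β : Fin d → ℝ) (θ : ℝ) (z : Fin d → ℝ) : Fin d → ℝ :=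
  z + ((Real.sqrt (1 + ∑ c, β c ^ 2) - 1) / (∑ c, β c ^ 2) * (β ⬝ᵥ z)) • β + θ • β

/-- `q_j(ρ) = E |det BM Y| 1{pat j (bary Y (ρ g))}`. -/
noncomputable def qq (d j : ℕ) (ρ : ℝ) : ℝ :=
  ∫ Y : Fin (d + 1) → Fin d → ℝ, |(BM Y).det| *
    (gv (Fin d)).real {g | pat j (bary Y (ρ • g))} ∂(gp (Fin (d + 1)) d)

/-- integrand of `Irad`. -/
noncomputable def irf (d j : ℕ) (ρ : ℝ) (r : Fin (d + 1) → ℝ) : ℝ :=
  Set.indicator {r : Fin (d + 1) → ℝ | pat j r ∧ 0 < ∑ i, r i}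
    (fun r => Real.exp (-∑ i, r i) * (∑ i, r i) ^ 2 *
      ((Real.sqrt ((∑ i, r i) ^ 2 * ρ ^ 2 + ∑ i, r i ^ 2))⁻¹) ^ (d + 2)) r

noncomputable def Irad (d j : ℕ) (ρ : ℝ) : ℝ := ∫ r : Fin (d + 1) → ℝ, irf d j ρ r

/-- `ψ_τ(θ)`. -/
noncomputable def psi (n : ℕ) (τ θ : ℝ) : ℝ :=
  Real.exp (-((n : ℝ) - 1) * θ ^ 2 / 2) *
    ∫ η : ℝ, |η| * Real.exp (-η ^ 2 / 2 - (θ - τ * η) ^ 2 / 2)

/-! ## Radon partitions -/

/-- the extra point `z` joins the first group. -/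
def RadP {d a b : ℕ} (x : Fin a ⊕ Fin b → Fin d → ℝ) (z : Fin d → ℝ) : Prop :=
  (convexHull ℝ (insert z (x '' Set.range Sum.inl)) ∩
    convexHull ℝ (x '' Set.range Sum.inr)).Nonempty

/-- the extra point `z` joins the second group. -/
def RadM {d a b : ℕ} (x : Fin a ⊕ Fin b → Fin d → ℝ) (z : Fin d → ℝ) : Prop :=
  (convexHull ℝ (x '' Set.range Sum.inl) ∩
    convexHull ℝ (insert z (x '' Set.range Sum.inr))).Nonempty

/-- sign: `-1` on the first group, `1` on the second. -/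
def sg {a b : ℕ} : Fin a ⊕ Fin b → ℝ := Sum.elim (fun _ => -1) (fun _ => 1)

/-- `s • hom z` lies in the open cone spanned by `sg i • hom (x i)`, `i ∈ S`. -/
def Pos {d a b : ℕ} (s : ℝ) (S : Finset (Fin a ⊕ Fin b)) (x : Fin a ⊕ Fin b → Fin d → ℝ)
    (z : Fin d → ℝ) : Prop :=
  ∃ m : Fin a ⊕ Fin b → ℝ, (∀ i, i ∉ S → m i = 0) ∧ (∀ i ∈ S, 0 < s * sg i * m i) ∧
    ∑ i, m i • hom (x i) = hom z

/-- the affine function interpolating `h` on `S` is on the correct strict side off `S`. -/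
def Dual {d a b : ℕ} (S : Finset (Fin a ⊕ Fin b)) (x : Fin a ⊕ Fin b → Fin d → ℝ)
    (h : Fin a ⊕ Fin b → ℝ) : Prop :=
  ∃ p : Fin (d + 1) → ℝ, (∀ i ∈ S, p ⬝ᵥ hom (x i) = h i) ∧
    (∀ i, i ∉ S → 0 < sg i * (p ⬝ᵥ hom (x i) - h i))

/-- general position. -/
def Gen {d a b : ℕ} (x : Fin a ⊕ Fin b → Fin d → ℝ) (z : Fin d → ℝ)
    (h : Fin a ⊕ Fin b → ℝ) : Prop :=
  (∀ S : Finset (Fin a ⊕ Fin b), S.card = d + 1 → LinearIndependent ℝ (fun i : S => hom (x i))) ∧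
  (∀ S : Finset (Fin a ⊕ Fin b), S.card = d →
    hom z ∉ Submodule.span ℝ ((fun i => hom (x i)) '' (S : Set (Fin a ⊕ Fin b)))) ∧
  (∀ S : Finset (Fin a ⊕ Fin b), S.card = d + 1 → ∀ p : Fin (d + 1) → ℝ,
    (∀ i ∈ S, p ⬝ᵥ hom (x i) = h i) → ∀ i, i ∉ S → p ⬝ᵥ hom (x i) ≠ h i)

/-- law of `(x, z)`. -/
noncomputable def mxz (d a b : ℕ) : Measure ((Fin a ⊕ Fin b → Fin d → ℝ) × (Fin d → ℝ)) :=
  (gp (Fin a ⊕ Fin b) d).prod (gv (Fin d))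

/-- law of `((x, z), h)`. -/
noncomputable def mxzh (d a b : ℕ) :
    Measure (((Fin a ⊕ Fin b → Fin d → ℝ) × (Fin d → ℝ)) × (Fin a ⊕ Fin b → ℝ)) :=
  (mxz d a b).prod (gv (Fin a ⊕ Fin b))

/-- probability of a Radon partition of type `(a + 1, b)`. -/
noncomputable def PPp (d a b : ℕ) : ℝ := (mxz d a b).real {q | RadP q.1 q.2}

/-- probability of a Radon partition of type `(a, b + 1)`. -/
noncomputable def PPm (d a b : ℕ) : ℝ := (mxz d a b).real {q | RadM q.1 q.2}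

/-! ## Statements of the pieces -/

/-- Linear programming: unique optimal basis. -/
def S_LP : Prop :=
  ∀ (ι : Type) [Fintype ι] [DecidableEq ι] (n : ℕ) (w : ι → Fin n → ℝ) (v : Fin n → ℝ)
    (c : ι → ℝ),
    n ≤ Fintype.card ι →
    (∀ S : Finset ι, S.card = n → LinearIndependent ℝ (fun i : S => w i)) →
    (∀ S : Finset ι, S.card < n → v ∉ Submodule.span ℝ (w '' (S : Set ι))) →
    (∀ S : Finset ι, S.card = n → ∀ p : Fin n → ℝ, (∀ i ∈ S, p ⬝ᵥ w i = c i) →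
      ∀ i, i ∉ S → p ⬝ᵥ w i ≠ c i) →
    (∃ p : Fin n → ℝ, ∀ i, p ⬝ᵥ w i ≤ c i) →
    (∃ y : ι → ℝ, (∀ i, 0 ≤ y i) ∧ ∑ i, y i • w i = v) →
    ∃! S : Finset ι, S.card = n ∧
      (∃ y : ι → ℝ, (∀ i ∈ S, 0 < y i) ∧ (∀ i, i ∉ S → y i = 0) ∧ ∑ i, y i • w i = v) ∧
      (∃ p : Fin n → ℝ, (∀ i ∈ S, p ⬝ᵥ w i = c i) ∧ (∀ i, i ∉ S → p ⬝ᵥ w i < c i))

/-- pointwise identity for data in general position. -/
def S_G : Prop :=
  ∀ (d a b : ℕ), d + 1 ≤ a + b → ∀ (x : Fin a ⊕ Fin b → Fin d → ℝ) (z : Fin d → ℝ)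
    (h : Fin a ⊕ Fin b → ℝ), Gen x z h →
    Set.indicator {q : (Fin a ⊕ Fin b → Fin d → ℝ) × (Fin d → ℝ) | RadP q.1 q.2}
        (fun _ => (1 : ℝ)) (x, z) -
      Set.indicator {q : (Fin a ⊕ Fin b → Fin d → ℝ) × (Fin d → ℝ) | RadM q.1 q.2}
        (fun _ => (1 : ℝ)) (x, z) =
    ∑ S ∈ (Finset.univ : Finset (Fin a ⊕ Fin b)).powersetCard (d + 1),
      (Set.indicator {q : ((Fin a ⊕ Fin b → Fin d → ℝ) × (Fin d → ℝ)) × (Fin a ⊕ Fin b → ℝ) |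
          Pos 1 S q.1.1 q.1.2 ∧ Dual S q.1.1 q.2} (fun _ => (1 : ℝ)) ((x, z), h) -
        Set.indicator {q : ((Fin a ⊕ Fin b → Fin d → ℝ) × (Fin d → ℝ)) × (Fin a ⊕ Fin b → ℝ) |
          Pos (-1) S q.1.1 q.1.2 ∧ Dual S q.1.1 q.2} (fun _ => (1 : ℝ)) ((x, z), h))

/-- general position almost surely. -/
def S_AS : Prop := ∀ (d a b : ℕ), ∀ᵐ q ∂(mxzh d a b), Gen q.1.1 q.1.2 q.2

/-- off-basis points. -/
def S_OFF : Prop :=
  ∀ (d : ℕ) (κ : Type) [Fintype κ] (s : κ → ℝ), (∀ i, s i = 1 ∨ s i = -1) →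
    ∀ p : Fin (d + 1) → ℝ,
    ((gp κ d).prod (gv κ)).real {q | ∀ i, 0 < s i * (p ⬝ᵥ hom (q.1 i) - q.2 i)} =
      ∏ i, Phi (s i * sd p)

/-- probabilities of the basic events. -/
def S_TS : Prop :=
  ∀ (d a b D : ℕ), a + b = d + 1 + D → ∀ S : Finset (Fin a ⊕ Fin b), S.card = d + 1 →
    NullMeasurableSet {q : ((Fin a ⊕ Fin b → Fin d → ℝ) × (Fin d → ℝ)) × (Fin a ⊕ Fin b → ℝ) |
          Pos 1 S q.1.1 q.1.2 ∧ Dual S q.1.1 q.2} (mxzh d a b) ∧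
    NullMeasurableSet {q : ((Fin a ⊕ Fin b → Fin d → ℝ) × (Fin d → ℝ)) × (Fin a ⊕ Fin b → ℝ) |
          Pos (-1) S q.1.1 q.1.2 ∧ Dual S q.1.1 q.2} (mxzh d a b) ∧
    (mxzh d a b).real {q | Pos 1 S q.1.1 q.1.2 ∧ Dual S q.1.1 q.2} =
      TT d D (S.filter fun i => i.isLeft).card (a - (S.filter fun i => i.isLeft).card) ∧
    (mxzh d a b).real {q | Pos (-1) S q.1.1 q.1.2 ∧ Dual S q.1.1 q.2} =
      TT d D (d + 1 - (S.filter fun i => i.isLeft).card)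
        (a - (S.filter fun i => i.isLeft).card)

/-- the summation formula. -/
def S_SUM : Prop :=
  ∀ (d a b D : ℕ), a + b = d + 1 + D →
    PPp d a b - PPm d a b =
      ∑ j ∈ Finset.range (d + 2), ((a.choose j : ℝ) * ((b.choose (d + 1 - j) : ℕ) : ℝ)) *
        (TT d D j (a - j) - TT d D (d + 1 - j) (a - j))

/-- substitution `h = BM x *ᵥ p`. -/
def S_TF1 : Prop :=
  ∀ (d : ℕ) (x : Fin (d + 1) → Fin d → ℝ), (BM x).det ≠ 0 → ∀ f : (Fin (d + 1) → ℝ) → ℝ,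
    ∫ h, f (gco x h) ∂(gv (Fin (d + 1))) =
      |(BM x).det| * ∫ p : Fin (d + 1) → ℝ, f p *
        ((Real.sqrt (2 * Real.pi))⁻¹ ^ (d + 1) *
          Real.exp (-(∑ i, (BM x *ᵥ p) i ^ 2) / 2))

/-- substitution `x i = x₀ + Q^{-1/2} Y i`. -/
def S_TF2 : Prop :=
  ∀ (d j : ℕ) (p : Fin (d + 1) → ℝ),
    ∫ x : Fin (d + 1) → Fin d → ℝ, |(BM x).det| *
      Real.exp (-(∑ i, (BM x *ᵥ p) i ^ 2) / 2) *
        (gv (Fin d)).real {z | pat j (bary x z)} ∂(gp (Fin (d + 1)) d) =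
    (Real.sqrt (1 + ∑ c : Fin d, p c.succ ^ 2))⁻¹ ^ (d + 2) *
      Real.exp (-((d : ℝ) + 1) * sd p ^ 2 / 2) *
      ∫ Y : Fin (d + 1) → Fin d → ℝ, |(BM Y).det| *
        (gv (Fin d)).real {z | pat j (bary Y (shear (fun c => p c.succ) (sd p) z))}
          ∂(gp (Fin (d + 1)) d)

/-- averaging over the slope. -/
def S_TF4 : Prop :=
  ∀ d : ℕ, ∃ C : ℝ, 0 < C ∧ ∀ (θ : ℝ) (W : (Fin d → ℝ) → ℝ), Measurable W →
    (∃ M : ℝ, ∀ z, |W z| ≤ M) →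
    ∫ β : Fin d → ℝ, (Real.sqrt (1 + ∑ c, β c ^ 2))⁻¹ ^ (d + 1) *
        ∫ z, W (shear β θ z) ∂(gv (Fin d)) =
      C * ∫ ζ, ∫ η, ∫ g, W (Real.sqrt (1 + ((θ - ζ) / η) ^ 2) • g) ∂(gv (Fin d)) ∂G1 ∂G1

/-- formula for `TT` (first form). -/
def S_TF : Prop :=
  ∀ d : ℕ, ∃ C : ℝ, 0 < C ∧ ∀ D j k : ℕ, TT d D j k =
    C * ∫ θ : ℝ, Real.exp (-((d : ℝ) + 1) * θ ^ 2 / 2) * chi D k θ *
      ∫ ζ, ∫ η, qq d j (Real.sqrt (1 + ((θ - ζ) / η) ^ 2)) ∂G1 ∂G1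

/-- formula for `TT` (second form). -/
def S_TAU : Prop :=
  ∀ d : ℕ, ∃ C : ℝ, 0 < C ∧ ∀ D j k : ℕ,
    Integrable (fun τ : ℝ => qq d j (Real.sqrt (1 + τ ^ 2)) *
      ∫ θ : ℝ, chi D k θ * Real.exp (-θ ^ 2 / 2) * psi (d + 1) τ θ) ∧
    TT d D j k = C * ∫ τ : ℝ, qq d j (Real.sqrt (1 + τ ^ 2)) *
      ∫ θ : ℝ, chi D k θ * Real.exp (-θ ^ 2 / 2) * psi (d + 1) τ θ

/-- second moment of the determinant under an exponential tilt. -/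
def S_QJ : Prop :=
  ∀ d : ℕ, ∃ K : ℝ, 0 < K ∧ ∀ (r : Fin (d + 1) → ℝ) (c : ℝ), 0 < c →
    ∫ Y : Fin (d + 1) → Fin d → ℝ, (BM Y).det ^ 2 *
      Real.exp (-(∑ l : Fin d, (∑ i, r i * Y i l) ^ 2) / (2 * c ^ 2)) ∂(gp (Fin (d + 1)) d) =
    K * (((d : ℝ) + 1) + (∑ i, r i) ^ 2 / c ^ 2) *
      (Real.sqrt (1 + (∑ i, r i ^ 2) / c ^ 2))⁻¹ ^ (d + 2)

/-- barycentric coordinates as integration variables. -/
def S_QS : Prop :=
  ∀ (d j : ℕ) (Y : Fin (d + 1) → Fin d → ℝ), (BM Y).det ≠ 0 → ∀ ρ : ℝ, 0 < ρ →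
    Integrable (Set.indicator {r : Fin (d + 1) → ℝ | pat j r ∧ 0 < ∑ i, r i}
      (fun r => Real.exp (-∑ i, r i) * ((Real.sqrt (2 * Real.pi))⁻¹ ^ d *
        (((∑ i, r i) * ρ)⁻¹ ^ d *
          Real.exp (-(∑ l : Fin d, (∑ i, r i * Y i l) ^ 2) /
            (2 * ((∑ i, r i) * ρ) ^ 2)))))) ∧
    (gv (Fin d)).real {g | pat j (bary Y (ρ • g))} =
      |(BM Y).det| * ∫ r, Set.indicator {r : Fin (d + 1) → ℝ | pat j r ∧ 0 < ∑ i, r i}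
      (fun r => Real.exp (-∑ i, r i) * ((Real.sqrt (2 * Real.pi))⁻¹ ^ d *
        (((∑ i, r i) * ρ)⁻¹ ^ d *
          Real.exp (-(∑ l : Fin d, (∑ i, r i * Y i l) ^ 2) /
            (2 * ((∑ i, r i) * ρ) ^ 2))))) r

/-- formula for `qq`. -/
def S_QF : Prop :=
  ∀ d : ℕ, ∃ C : ℝ, 0 < C ∧ ∀ (j : ℕ) (ρ : ℝ), 0 < ρ →
    Integrable (irf d j ρ) ∧ qq d j ρ = C * (((d : ℝ) + 1) * ρ ^ 2 + 1) * Irad d j ρ

/-- comparison of `j` and `n - j`. -/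
def S_QP : Prop :=
  ∀ (d j : ℕ), 2 * j < d + 1 → ∀ ρ : ℝ, 0 < ρ → Integrable (irf d j ρ) →
    Integrable (irf d (d + 1 - j) ρ) → Irad d (d + 1 - j) ρ < Irad d j ρ

/-- properties of `psi`. -/
def S_PSI : Prop :=
  ∀ (n : ℕ), 2 ≤ n → ∀ τ : ℝ, Continuous (psi n τ) ∧ (∀ θ, psi n τ (-θ) = psi n τ θ) ∧
    StrictAntiOn (psi n τ) (Set.Ici 0) ∧ (∀ θ, 0 < psi n τ θ)

/-- the crossing lemma. -/
def S_CROSS : Prop :=
  ∀ ψ : ℝ → ℝ, Continuous ψ → (∀ t, ψ (-t) = ψ t) → StrictAntiOn ψ (Set.Ici 0) →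
    (∀ t, 0 ≤ ψ t) → ∀ D k : ℕ, 1 ≤ k → 2 * k ≤ D →
    (D.choose (k - 1) : ℝ) * ∫ t : ℝ, chi D (k - 1) t * Real.exp (-t ^ 2 / 2) * ψ t <
      (D.choose k : ℝ) * ∫ t : ℝ, chi D k t * Real.exp (-t ^ 2 / 2) * ψ t

/-- properties of the numbers `TT`. -/
def S_KK : Prop :=
  ∀ (d D j : ℕ), 1 ≤ d → 2 * j < d + 1 →
    (∀ k, k ≤ D → TT d D (d + 1 - j) k < TT d D j k) ∧
    (∀ i k, k ≤ D → TT d D i (D - k) = TT d D i k) ∧
    (∀ k, 1 ≤ k → 2 * k ≤ D →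
      (D.choose (k - 1) : ℝ) * (TT d D j (k - 1) - TT d D (d + 1 - j) (k - 1)) <
        (D.choose k : ℝ) * (TT d D j k - TT d D (d + 1 - j) k))

/-- the combinatorial conclusion. -/
def S_COMB : Prop :=
  ∀ (n D a b : ℕ) (T : ℕ → ℕ → ℝ), 2 ≤ n → a < b → a + b = n + D →
    (∀ j k, 2 * j < n → k ≤ D → T (n - j) k < T j k) →
    (∀ j k, k ≤ D → T j (D - k) = T j k) →
    (∀ j k, 2 * j < n → 1 ≤ k → 2 * k ≤ D →
      (D.choose (k - 1) : ℝ) * (T j (k - 1) - T (n - j) (k - 1)) <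
        (D.choose k : ℝ) * (T j k - T (n - j) k)) →
    0 < ∑ j ∈ Finset.range (n + 1), ((a.choose j : ℝ) * ((b.choose (n - j) : ℕ) : ℝ)) *
        (T j (a - j) - T (n - j) (a - j))

/-- one step towards balance. -/
def S_STEP : Prop := ∀ d a b : ℕ, 1 ≤ d → a < b → d + 1 ≤ a + b → PPm d a b < PPp d a b

/-- the probability in the problem. -/
noncomputable def radonProb (d N : ℕ) (A : Finset (Fin N)) : ℝ :=
  (Measure.pi fun _ : Fin N => stdGaussian (EuclideanSpace ℝ (Fin d))).real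
    {x | (convexHull ℝ (x '' (A : Set (Fin N))) ∩
      convexHull ℝ (x '' ((A : Set (Fin N))ᶜ))).Nonempty}

/-- conclusion, from one step. -/
def S_FIN : Prop :=
  S_STEP → ∀ (d N : ℕ), 1 ≤ d → d + 2 ≤ N → ∀ A A' : Finset (Fin N), A.card < A'.card →
    A'.card ≤ (A'ᶜ).card → radonProb d N A < radonProb d N A'

end Pool.Agent.K1H9.RP
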