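import Pool.Agent.K1H9.RP.Basic

/-!
# Independence almost everywhere
-/

open MeasureTheory ProbabilityTheory Matrix
open scoped BigOperators ENNReal

namespace Pool.Agent.K1H9.RP

theorem hom_add_smul {d : ℕ} (z w : Fin d → ℝ) (t : ℝ) :
    hom (z + t • (w - z)) = hom z + t • (hom w - hom z) := by
  funext i
  refine Fin.cases ?_ (fun c => ?_) i
  · simp [hom_zero]
  · simp [hom_succ]

theorem hom_lineMap {d : ℕ} (z w : Fin d → ℝ) (t : ℝ) :
    hom (AffineMap.lineMap z w t) = (1 - t) • hom z + t • hom w := by
  funext i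
  refine Fin.cases ?_ (fun c => ?_) i
  · simp [hom_zero]
  · simp [hom_succ, AffineMap.lineMap_apply]; ring

/-- `hom z` avoids a fixed proper subspace for a.e. `z`. -/
theorem volume_hom_mem {d : ℕ} (V : Submodule ℝ (Fin (d + 1) → ℝ)) (hV : V ≠ ⊤) :
    (volume : Measure (Fin d → ℝ)) {z | hom z ∈ V} = 0 := by
  let s : AffineSubspace ℝ (Fin d → ℝ) :=
    { carrier := {z | hom z ∈ V}
      smul_vsub_vadd_mem' := by
        intro c p1 p2 p3 h1 h2 h3
        have h : hom (c • (p1 -ᵥ p2) +ᵥ p3) = c • (hom p1 - hom p2) + hom p3 := by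
          funext i
          refine Fin.cases ?_ (fun c => ?_) i
          · simp [hom_zero]
          · simp [hom_succ]
        show hom (c • (p1 -ᵥ p2) +ᵥ p3) ∈ V
        rw [h]
        exact V.add_mem (V.smul_mem _ (V.sub_mem h1 h2)) h3 }
  have hs : s ≠ ⊤ := by
    intro htop
    apply hV
    have hall : ∀ z : Fin d → ℝ, hom z ∈ V := fun z => by
      have : z ∈ s := by rw [htop]; trivial
      exact this
    rw [eq_top_iff]
    intro v _
    have h0 : (Pi.single 0 1 : Fin (d + 1) → ℝ) ∈ V := by
      have h := hall 0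
      have : hom (0 : Fin d → ℝ) = Pi.single 0 1 := by
        funext i
        refine Fin.cases ?_ (fun c => ?_) i
        · simp [hom_zero]
        · simp [hom_succ]
      rwa [this] at h
    have h1 : v = hom (fun c => v c.succ) + (v 0 - 1) • (Pi.single 0 1 : Fin (d + 1) → ℝ) := by
      funext i
      refine Fin.cases ?_ (fun c => ?_) i
      · simp [hom_zero]
      · simp [hom_succ]
    rw [h1]
    exact V.add_mem (hall _) (V.smul_mem _ h0)
  exact Measure.addHaar_affineSubspace volume s hs

theorem ae_hom_notMem {d : ℕ} (V : Submodule ℝ (Fin (d + 1) → ℝ)) (hV : V ≠ ⊤) :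
    ∀ᵐ z ∂(gv (Fin d)), hom z ∉ V := by
  refine (gv_absolutelyContinuous (Fin d)).ae_le ?_
  exact measure_eq_zero_iff_ae_notMem.1 (volume_hom_mem V hV)

theorem measurableSet_linInd {ι : Type} [Fintype ι] {d : ℕ} :
    MeasurableSet {x : ι → Fin d → ℝ | LinearIndependent ℝ (fun i => hom (x i))} := by
  have h : IsOpen {f : ι → Fin (d + 1) → ℝ | LinearIndependent ℝ f} :=
    isOpen_setOfPred_linearIndependent
  have hc : Continuous (fun x : ι → Fin d → ℝ => fun i => hom (x i)) :=
    continuous_pi fun i => continuous_hom.comp (continuous_apply i)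
  exact (h.preimage hc).measurableSet

/-- `k ≤ d + 1` Gaussian points are affinely independent a.s. -/
theorem ae_linInd_fin {d : ℕ} (k : ℕ) (hk : k ≤ d + 1) :
    ∀ᵐ x ∂(gp (Fin k) d), LinearIndependent ℝ (fun i => hom (x i)) := by
  induction k with
  | zero => exact Filter.Eventually.of_forall fun x => linearIndependent_empty_type
  | succ k ih =>
    have ih' := ih (by omega)
    have hmp := measurePreserving_piFinSuccAbove (fun _ : Fin (k + 1) => gv (Fin d)) 0
    have hmeas : MeasurableSet {q : (Fin d → ℝ) × (Fin k → Fin d → ℝ) |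
        LinearIndependent ℝ (fun i => hom ((Fin.cons q.1 q.2 : Fin (k + 1) → Fin d → ℝ) i))} := by
      have hc : Continuous (fun q : (Fin d → ℝ) × (Fin k → Fin d → ℝ) =>
          (Fin.cons q.1 q.2 : Fin (k + 1) → Fin d → ℝ)) := by
        refine continuous_pi fun i => ?_
        refine Fin.cases ?_ (fun c => ?_) i
        · exact continuous_fst
        · exact (continuous_apply c).comp continuous_snd
      exact hc.measurable (measurableSet_linInd (ι := Fin (k + 1)) (d := d))
    have key : ∀ᵐ q ∂((gv (Fin d)).prod (Measure.pi fun _ : Fin k => gv (Fin d))),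
        LinearIndependent ℝ (fun i => hom ((Fin.cons q.1 q.2 : Fin (k + 1) → Fin d → ℝ) i)) := by
      have hsw : ∀ᵐ q ∂((Measure.pi fun _ : Fin k => gv (Fin d)).prod (gv (Fin d))),
          LinearIndependent ℝ (fun i => hom ((Fin.cons q.2 q.1 : Fin (k + 1) → Fin d → ℝ) i)) := by
        refine (Measure.ae_prod_iff_ae_ae ?_).2 ?_
        · exact measurable_swap hmeas
        · have ih'' : ∀ᵐ x ∂(Measure.pi fun _ : Fin k => gv (Fin d)),
              LinearIndependent ℝ (fun i => hom (x i)) := ih'
          filter_upwards [ih''] with y hy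
          have hV : Submodule.span ℝ (Set.range fun i => hom (y i)) ≠ ⊤ := by
            intro htop
            have h1 : Module.finrank ℝ (Submodule.span ℝ (Set.range fun i => hom (y i))) ≤ k := by
              have := finrank_range_le_card (R := ℝ) (fun i => hom (y i))
              simpa [Set.finrank] using this
            rw [htop, finrank_top] at h1
            simp at h1
            omega
          filter_upwards [ae_hom_notMem _ hV] with z hz
          have h2 : (fun i => hom ((Fin.cons z y : Fin (k + 1) → Fin d → ℝ) i)) =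
              Fin.cons (hom z) (fun i => hom (y i)) := by
            funext i
            refine Fin.cases ?_ (fun c => ?_) i
            · rfl
            · rfl
          show LinearIndependent ℝ (fun i => hom ((Fin.cons z y : Fin (k + 1) → Fin d → ℝ) i))
          rw [h2, linearIndependent_finCons]
          exact ⟨hy, hz⟩
      have := (Measure.measurePreserving_swap (μ := gv (Fin d))
        (ν := Measure.pi fun _ : Fin k => gv (Fin d))).quasiMeasurePreserving.ae hsw
      exact this
    have h3 := hmp.quasiMeasurePreserving.ae key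
    refine h3.mono fun x hx => ?_
    have hx' : (Fin.cons ((MeasurableEquiv.piFinSuccAbove (fun _ => Fin d → ℝ) 0 x).1)
        ((MeasurableEquiv.piFinSuccAbove (fun _ => Fin d → ℝ) 0 x).2) :
          Fin (k + 1) → Fin d → ℝ) = x := by
      funext j
      refine Fin.cases ?_ (fun j => ?_) j
      · rfl
      · rfl
    rw [hx'] at hx
    exact hx

theorem det_ne_zero_iff {d : ℕ} (x : Fin (d + 1) → Fin d → ℝ) :
    (BM x).det ≠ 0 ↔ LinearIndependent ℝ (fun i => hom (x i)) := by
  have h : LinearIndependent ℝ (BM x).row ↔ IsUnit (BM x) :=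
    Matrix.linearIndependent_rows_iff_isUnit
  rw [Matrix.isUnit_iff_isUnit_det, isUnit_iff_ne_zero] at h
  exact h.symm

/-- the determinant is a.s. nonzero. -/
theorem ae_det_ne_zero (d : ℕ) : ∀ᵐ x ∂(gp (Fin (d + 1)) d), (BM x).det ≠ 0 := by
  filter_upwards [ae_linInd_fin (d := d) (d + 1) le_rfl] with x hx
  exact (det_ne_zero_iff x).2 hx

end Pool.Agent.K1H9.RP
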