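import Pool.Agent.K1H9.RP.Ae

/-!
# Sub-collections, integrability of the determinant, closed Radon events
-/

open MeasureTheory ProbabilityTheory Matrix
open scoped BigOperators ENNReal

namespace Pool.Agent.K1H9.RP

/-- selecting coordinates along an injection preserves i.i.d. products. -/
theorem measurePreserving_comp_inj {ι κ E : Type*} [Fintype ι] [Fintype κ] [MeasurableSpace E]
    (μ : Measure E) [IsProbabilityMeasure μ] (e : κ → ι) (he : Function.Injective e) :
    MeasurePreserving (fun x : ι → E => x ∘ e) (Measure.pi fun _ => μ) (Measure.pi fun _ => μ) := by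
  classical
  have hm : Measurable (fun x : ι → E => x ∘ e) :=
    measurable_pi_lambda _ fun i => measurable_pi_apply (e i)
  refine ⟨hm, ?_⟩
  symm
  apply Measure.pi_eq
  intro s hs
  rw [Measure.map_apply hm (MeasurableSet.univ_pi hs)]
  have h1 : (fun x : ι → E => x ∘ e) ⁻¹' (Set.univ.pi s) =
      Set.univ.pi (fun i => {y | ∀ k, e k = i → y ∈ s k}) := by
    ext x
    simp only [Set.mem_preimage, Set.mem_pi, Set.mem_univ, true_imp_iff, Function.comp,
      Set.mem_ofPred_eq]
    constructor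
    · intro h i k hk
      rw [← hk]; exact h k
    · intro h k
      exact h (e k) k rfl
  rw [h1, Measure.pi_pi]
  have h2 : ∀ i, μ {y | ∀ k, e k = i → y ∈ s k} = ∏ k, if e k = i then μ (s k) else 1 := by
    intro i
    by_cases hi : ∃ k, e k = i
    · obtain ⟨k, hk⟩ := hi
      have h3 : {y | ∀ k', e k' = i → y ∈ s k'} = s k := by
        ext y
        simp only [Set.mem_ofPred_eq]
        constructor
        · intro h; exact h k hk
        · intro h k' hk'
          have : k' = k := he (hk'.trans hk.symm)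
          rw [this]; exact h
      rw [h3, Finset.prod_eq_single k]
      · simp [hk]
      · intro b _ hb
        rw [if_neg]
        intro h; exact hb (he (h.trans hk.symm))
      · intro h; exact absurd (Finset.mem_univ k) h
    · push Not at hi
      have h3 : {y : E | ∀ k', e k' = i → y ∈ s k'} = Set.univ := by
        ext y
        simp only [Set.mem_ofPred_eq, Set.mem_univ, iff_true]
        intro k hk; exact absurd hk (hi k)
      rw [h3, measure_univ, Finset.prod_eq_one]
      intro k _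
      rw [if_neg (hi k)]
  simp_rw [h2]
  rw [Finset.prod_comm]
  apply Finset.prod_congr rfl
  intro k _
  rw [Finset.prod_ite_eq]
  simp

theorem abs_det_le {n : ℕ} (M : Matrix (Fin n) (Fin n) ℝ) :
    |M.det| ≤ ∏ i, ∑ j, |M i j| := by
  rw [← Matrix.det_transpose, Matrix.det_apply]
  calc |∑ σ : Equiv.Perm (Fin n), Equiv.Perm.sign σ • ∏ i, Mᵀ (σ i) i|
      ≤ ∑ σ : Equiv.Perm (Fin n), |Equiv.Perm.sign σ • ∏ i, Mᵀ (σ i) i| :=
        Finset.abs_sum_le_sum_abs _ _
    _ = ∑ σ : Equiv.Perm (Fin n), ∏ i, |M i (σ i)| := by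
        apply Finset.sum_congr rfl
        intro σ _
        rw [← Finset.abs_prod]
        rcases Int.units_eq_one_or (Equiv.Perm.sign σ) with h | h
        · rw [h]; simp [Matrix.transpose_apply]
        · rw [h]; simp [Matrix.transpose_apply]
    _ ≤ ∑ f : Fin n → Fin n, ∏ i, |M i (f i)| := by
        have hinj : Function.Injective (fun σ : Equiv.Perm (Fin n) => (σ : Fin n → Fin n)) :=
          fun a b h => DFunLike.coe_injective h
        rw [← Finset.sum_image (s := Finset.univ)
          (g := fun σ : Equiv.Perm (Fin n) => (σ : Fin n → Fin n))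
          (f := fun f : Fin n → Fin n => ∏ i, |M i (f i)|) (fun a _ b _ h => hinj h)]
        apply Finset.sum_le_sum_of_subset_of_nonneg (Finset.subset_univ _)
        intro f _ _
        exact Finset.prod_nonneg fun i _ => abs_nonneg _
    _ = ∏ i, ∑ j, |M i j| := by
        rw [Finset.prod_univ_sum]
        simp

theorem integrable_sq_G1 : Integrable (fun x : ℝ => x ^ 2) G1 := by
  have h : MemLp id 2 G1 := by
    unfold G1
    exact memLp_id_gaussianReal 2
  exact h.integrable_sq

theorem integrable_coord_sq {κ : Type} [Fintype κ] (i : κ) :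
    Integrable (fun x : κ → ℝ => x i ^ 2) (gv κ) := by
  have h := measurePreserving_eval (fun _ : κ => G1) i
  exact (h.integrable_comp integrable_sq_G1.aestronglyMeasurable).2 integrable_sq_G1

theorem integrable_row {d : ℕ} :
    Integrable (fun x : Fin d → ℝ => ((d : ℝ) + 1) * (1 + ∑ c, x c ^ 2)) (gv (Fin d)) :=
  ((integrable_const _).add (integrable_finsetSum _ fun c _ => integrable_coord_sq c)).const_mul _

theorem det_sq_le {d : ℕ} (x : Fin (d + 1) → Fin d → ℝ) :
    (BM x).det ^ 2 ≤ ∏ i, (((d : ℝ) + 1) * (1 + ∑ c, x i c ^ 2)) := by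
  have h1 := abs_det_le (BM x)
  calc (BM x).det ^ 2 = |(BM x).det| ^ 2 := (sq_abs _).symm
    _ ≤ (∏ i, ∑ j, |BM x i j|) ^ 2 := by
        apply pow_le_pow_left₀ (abs_nonneg _) h1
    _ = ∏ i, (∑ j, |BM x i j|) ^ 2 := by rw [Finset.prod_pow]
    _ ≤ ∏ i, (((d : ℝ) + 1) * (1 + ∑ c, x i c ^ 2)) := by
        apply Finset.prod_le_prod
        · intro i _; positivity
        · intro i _
          have h2 := sq_sum_le_card_mul_sum_sq (s := (Finset.univ : Finset (Fin (d + 1))))
            (f := fun j => |BM x i j|)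
          refine h2.trans (le_of_eq ?_)
          rw [Finset.card_univ, Fintype.card_fin, Fin.sum_univ_succ]
          push_cast
          simp [BM_apply, hom_zero, hom_succ]

theorem integrable_det_sq (d : ℕ) :
    Integrable (fun x : Fin (d + 1) → Fin d → ℝ => (BM x).det ^ 2) (gp (Fin (d + 1)) d) := by
  have h : Integrable (fun x : Fin (d + 1) → Fin d → ℝ =>
      ∏ i, (((d : ℝ) + 1) * (1 + ∑ c, x i c ^ 2))) (gp (Fin (d + 1)) d) := by
    have h0 : ∀ i : Fin (d + 1), Integrable
        ((fun (_ : Fin (d + 1)) (y : Fin d → ℝ) => ((d : ℝ) + 1) * (1 + ∑ c, y c ^ 2)) i)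
        ((fun _ : Fin (d + 1) => gv (Fin d)) i) := fun _ => integrable_row
    exact Integrable.fintype_prod h0
  refine h.mono (continuous_det_BM.pow 2).aestronglyMeasurable ?_
  filter_upwards with x
  rw [Real.norm_of_nonneg (sq_nonneg _), Real.norm_of_nonneg (by positivity)]
  exact det_sq_le x

theorem integrable_det (d : ℕ) :
    Integrable (fun x : Fin (d + 1) → Fin d → ℝ => (BM x).det) (gp (Fin (d + 1)) d) := by
  refine ((integrable_const 1).add (integrable_det_sq d)).mono
    continuous_det_BM.aestronglyMeasurable ?_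
  filter_upwards with x
  rw [Pi.add_apply, Real.norm_eq_abs, Real.norm_eq_abs,
    abs_of_nonneg (show (0 : ℝ) ≤ 1 + (BM x).det ^ 2 by positivity), abs_le]
  constructor <;> nlinarith [sq_nonneg ((BM x).det + 1), sq_nonneg ((BM x).det - 1)]

theorem integrable_abs_det (d : ℕ) :
    Integrable (fun x : Fin (d + 1) → Fin d → ℝ => |(BM x).det|) (gp (Fin (d + 1)) d) :=
  (integrable_det d).abs

/-! ## Radon events are closed -/

theorem mem_hull_image_iff {ι E : Type*} [Fintype ι] [AddCommGroup E] [Module ℝ E] (I : Set ι)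
    (f : ι → E) (y : E) :
    y ∈ convexHull ℝ (f '' I) ↔
      ∃ u ∈ stdSimplex ℝ ι, (∀ i, i ∉ I → u i = 0) ∧ ∑ i, u i • f i = y := by
  classical
  constructor
  · intro hy
    have hsub : convexHull ℝ (f '' I) ⊆
        {y | ∃ u ∈ stdSimplex ℝ ι, (∀ i, i ∉ I → u i = 0) ∧ ∑ i, u i • f i = y} := by
      apply convexHull_min
      · rintro _ ⟨i, hi, rfl⟩
        refine ⟨Pi.single i 1, single_mem_stdSimplex ℝ i, ?_, ?_⟩
        · intro j hj
          have hne : j ≠ i := fun h => hj (by rw [h]; exact hi)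
          exact Pi.single_eq_of_ne hne _
        · rw [Finset.sum_eq_single i]
          · simp
          · intro j _ hj; simp [Pi.single_eq_of_ne hj]
          · intro h; exact absurd (Finset.mem_univ i) h
      · rintro y1 ⟨u1, hu1, hs1, rfl⟩ y2 ⟨u2, hu2, hs2, rfl⟩ s t hs ht hst
        refine ⟨s • u1 + t • u2, convex_stdSimplex ℝ ι hu1 hu2 hs ht hst, ?_, ?_⟩
        · intro j hj
          simp [hs1 j hj, hs2 j hj]
        · simp only [Pi.add_apply, Pi.smul_apply, smul_eq_mul, add_smul, Finset.sum_add_distrib,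
            Finset.smul_sum, mul_smul]
    exact hsub hy
  · rintro ⟨u, hu, hs, rfl⟩
    have h1 : ∑ i, u i • f i = ∑ i ∈ Finset.univ.filter (fun i => i ∈ I), u i • f i := by
      symm
      apply Finset.sum_subset (Finset.filter_subset _ _)
      intro i _ hi
      have : i ∉ I := by simpa using hi
      rw [hs i this, zero_smul]
    have h2 : ∑ i ∈ Finset.univ.filter (fun i => i ∈ I), u i = 1 := by
      rw [← hu.2]
      apply Finset.sum_subset (Finset.filter_subset _ _)
      intro i _ hi
      have : i ∉ I := by simpa using hi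
      rw [hs i this]
    rw [h1]
    apply (convex_convexHull ℝ (f '' I)).sum_mem
    · intro i _; exact hu.1 i
    · exact h2
    · intro i hi
      apply subset_convexHull
      exact ⟨i, by simpa using hi, rfl⟩

/-- the hulls of `f '' I` and `f '' J` meet iff there are weights. -/
theorem radon_iff {ι E : Type*} [Fintype ι] [AddCommGroup E] [Module ℝ E] (I J : Set ι)
    (f : ι → E) :
    (convexHull ℝ (f '' I) ∩ convexHull ℝ (f '' J)).Nonempty ↔
      ∃ q : stdSimplex ℝ ι × stdSimplex ℝ ι, (∀ i, i ∉ I → q.1.1 i = 0) ∧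
        (∀ i, i ∉ J → q.2.1 i = 0) ∧ ∑ i, q.1.1 i • f i = ∑ i, q.2.1 i • f i := by
  constructor
  · rintro ⟨y, h1, h2⟩
    obtain ⟨u, hu, hu1, hu2⟩ := (mem_hull_image_iff I f y).1 h1
    obtain ⟨v, hv, hv1, hv2⟩ := (mem_hull_image_iff J f y).1 h2
    exact ⟨⟨⟨u, hu⟩, ⟨v, hv⟩⟩, hu1, hv1, hu2.trans hv2.symm⟩
  · rintro ⟨⟨⟨u, hu⟩, ⟨v, hv⟩⟩, hu1, hv1, h⟩
    exact ⟨_, (mem_hull_image_iff I f _).2 ⟨u, hu, hu1, rfl⟩,
      (mem_hull_image_iff J f _).2 ⟨v, hv, hv1, h.symm⟩⟩

theorem isClosed_radon {X ι E : Type*} [TopologicalSpace X] [Fintype ι] [AddCommGroup E]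
    [Module ℝ E] [TopologicalSpace E] [T2Space E] [ContinuousAdd E] [ContinuousSMul ℝ E]
    (I J : Set ι) (g : X → ι → E) (hg : Continuous g) :
    IsClosed {x | (convexHull ℝ (g x '' I) ∩ convexHull ℝ (g x '' J)).Nonempty} := by
  have h1 : {x | (convexHull ℝ (g x '' I) ∩ convexHull ℝ (g x '' J)).Nonempty} =
      Prod.fst '' {p : X × (stdSimplex ℝ ι × stdSimplex ℝ ι) | (∀ i, i ∉ I → p.2.1.1 i = 0) ∧
        (∀ i, i ∉ J → p.2.2.1 i = 0) ∧
        ∑ i, p.2.1.1 i • g p.1 i = ∑ i, p.2.2.1 i • g p.1 i} := by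
    ext x
    simp only [Set.mem_ofPred_eq, radon_iff, Set.mem_image, Prod.exists]
    constructor
    · rintro ⟨u, v, h⟩; exact ⟨x, u, v, h, rfl⟩
    · rintro ⟨x', u, v, h, rfl⟩; exact ⟨u, v, h⟩
  rw [h1]
  apply isClosedMap_fst_of_compactSpace
  have c1 : ∀ i, Continuous (fun p : X × (stdSimplex ℝ ι × stdSimplex ℝ ι) => p.2.1.1 i) :=
    fun i => (continuous_apply i).comp (continuous_subtype_val.comp
      (continuous_fst.comp continuous_snd))
  have c2 : ∀ i, Continuous (fun p : X × (stdSimplex ℝ ι × stdSimplex ℝ ι) => p.2.2.1 i) :=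
    fun i => (continuous_apply i).comp (continuous_subtype_val.comp
      (continuous_snd.comp continuous_snd))
  have c3 : ∀ i, Continuous (fun p : X × (stdSimplex ℝ ι × stdSimplex ℝ ι) => g p.1 i) :=
    fun i => (continuous_apply i).comp (hg.comp continuous_fst)
  have h2 : {p : X × (stdSimplex ℝ ι × stdSimplex ℝ ι) | (∀ i, i ∉ I → p.2.1.1 i = 0) ∧
        (∀ i, i ∉ J → p.2.2.1 i = 0) ∧
        ∑ i, p.2.1.1 i • g p.1 i = ∑ i, p.2.2.1 i • g p.1 i} =
      (⋂ i, ⋂ _ : i ∉ I, {p | p.2.1.1 i = 0}) ∩ ((⋂ i, ⋂ _ : i ∉ J, {p | p.2.2.1 i = 0}) ∩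
        {p | ∑ i, p.2.1.1 i • g p.1 i = ∑ i, p.2.2.1 i • g p.1 i}) := by
    ext p
    simp
  rw [h2]
  refine IsClosed.inter ?_ (IsClosed.inter ?_ ?_)
  · exact isClosed_iInter fun i => isClosed_iInter fun _ => isClosed_eq (c1 i) continuous_const
  · exact isClosed_iInter fun i => isClosed_iInter fun _ => isClosed_eq (c2 i) continuous_const
  · exact isClosed_eq (continuous_finsetSum _ fun i _ => (c1 i).smul (c3 i))
      (continuous_finsetSum _ fun i _ => (c2 i).smul (c3 i))

/-- all points, indexed by `Option`. -/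
def allp {d a b : ℕ} (q : (Fin a ⊕ Fin b → Fin d → ℝ) × (Fin d → ℝ)) :
    Option (Fin a ⊕ Fin b) → Fin d → ℝ := fun o => o.elim q.2 q.1

theorem continuous_allp {d a b : ℕ} : Continuous (allp (d := d) (a := a) (b := b)) := by
  refine continuous_pi fun o => ?_
  cases o with
  | none => exact continuous_snd
  | some i => exact (continuous_apply i).comp continuous_fst

theorem allp_image_some {d a b : ℕ} (q : (Fin a ⊕ Fin b → Fin d → ℝ) × (Fin d → ℝ))
    (I : Set (Fin a ⊕ Fin b)) : allp q '' (some '' I) = q.1 '' I := by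
  rw [Set.image_image]; rfl

theorem allp_image_insert {d a b : ℕ} (q : (Fin a ⊕ Fin b → Fin d → ℝ) × (Fin d → ℝ))
    (I : Set (Fin a ⊕ Fin b)) : allp q '' (insert none (some '' I)) = insert q.2 (q.1 '' I) := by
  rw [Set.image_insert_eq, allp_image_some]; rfl

theorem isClosed_radP (d a b : ℕ) :
    IsClosed {q : (Fin a ⊕ Fin b → Fin d → ℝ) × (Fin d → ℝ) | RadP q.1 q.2} := by
  have h := isClosed_radon (insert none (some '' Set.range Sum.inl))
    (some '' Set.range Sum.inr) (allp (d := d) (a := a) (b := b)) continuous_allp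
  simp only [allp_image_insert, allp_image_some] at h
  exact h

theorem isClosed_radM (d a b : ℕ) :
    IsClosed {q : (Fin a ⊕ Fin b → Fin d → ℝ) × (Fin d → ℝ) | RadM q.1 q.2} := by
  have h := isClosed_radon (some '' Set.range Sum.inl)
    (insert none (some '' Set.range Sum.inr)) (allp (d := d) (a := a) (b := b)) continuous_allp
  simp only [allp_image_insert, allp_image_some] at h
  exact h

theorem measurableSet_radP (d a b : ℕ) :
    MeasurableSet {q : (Fin a ⊕ Fin b → Fin d → ℝ) × (Fin d → ℝ) | RadP q.1 q.2} :=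
  (isClosed_radP d a b).measurableSet

theorem measurableSet_radM (d a b : ℕ) :
    MeasurableSet {q : (Fin a ⊕ Fin b → Fin d → ℝ) × (Fin d → ℝ) | RadM q.1 q.2} :=
  (isClosed_radM d a b).measurableSet

end Pool.Agent.K1H9.RP
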