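import Pool.Agent.K1H9.RP.Ae2
import Pool.Agent.K1H50.RP.LP
import Pool.Agent.K1H50.RP.Sum
import Pool.Agent.K1H66.RP.G
import Pool.Agent.K1H65.RP.Off
import Pool.Agent.K1H65.RP.QF
import Pool.Agent.K1H61.RP.Ts
import Pool.Agent.K1H60.RP.TF1
import Pool.Agent.K1H37.RP.TF4
import Pool.Agent.K1H36.RP.Psi
import Pool.Agent.K1H67.RP.Cross
import Pool.Agent.K1H67.RP.Comb
import Pool.Agent.K1H24.RP.KK
import Pool.Agent.K1H89.RP.AS

/-!
# Assembly for MP_bc6d74_co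
-/

open MeasureTheory ProbabilityTheory Matrix
open scoped BigOperators ENNReal

namespace Pool.Agent.K1H9.RP

theorem t_SUM : S_SUM :=
  Pool.Agent.K1H50.RP.t_SUM' measurableSet_radP measurableSet_radM
    (Pool.Agent.K1H66.RP.t_G Pool.Agent.K1H50.RP.t_LP) Pool.Agent.K1H89.RP.t_AS
    (Pool.Agent.K1H61.RP.t_TS Pool.Agent.K1H65.RP.t_OFF Pool.Agent.K1H89.RP.t_AS)

/-- one step, from the properties of the numbers `TT`. -/
theorem step_of (hSUM : S_SUM) (hKK : S_KK) (hCOMB : S_COMB) : S_STEP := by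
  intro d a b hd hab hn
  obtain ⟨D, hD⟩ : ∃ D, a + b = d + 1 + D := ⟨a + b - (d + 1), by omega⟩
  have h1 := hSUM d a b D hD
  have h2 := hCOMB (d + 1) D a b (TT d D) (by omega) hab hD
    (fun j k hj hk => (hKK d D j hd hj).1 k hk)
    (fun j k hk => (hKK d D 0 hd (by omega)).2.1 j k hk)
    (fun j k hj hk hkD => (hKK d D j hd hj).2.2 k hk hkD)
  have h3 : 0 < PPp d a b - PPm d a b := by rw [h1]; exact h2
  linarith

theorem step_of' (hTF : S_TF) (hQJ : S_QJ) (hQP : S_QP) (hTAU : S_TF → S_TAU) : S_STEP :=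
  step_of t_SUM
    (Pool.Agent.K1H24.RP.t_KK (hTAU hTF) Pool.Agent.K1H36.RP.t_PSI Pool.Agent.K1H67.RP.t_CROSS
      (Pool.Agent.K1H65.RP.t_QF hQJ Pool.Agent.K1H60.RP.t_QS) hQP)
    Pool.Agent.K1H67.RP.t_COMB

end Pool.Agent.K1H9.RP
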