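import Pool.Agent.K1H9.RP.Stm

/-!
# Basic lemmas: densities, measurability
-/

open MeasureTheory ProbabilityTheory Matrix
open scoped BigOperators ENNReal

namespace Pool.Agent.K1H9.RP

instance : IsProbabilityMeasure G1 := by unfold G1; infer_instance

instance (κ : Type) [Fintype κ] : IsProbabilityMeasure (gv κ) := by unfold gv; infer_instance

instance (κ : Type) [Fintype κ] (d : ℕ) : IsProbabilityMeasure (gp κ d) := by
  unfold gp; infer_instance

instance (d a b : ℕ) : IsProbabilityMeasure (mxz d a b) := by unfold mxz; infer_instance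

instance (d a b : ℕ) : IsProbabilityMeasure (mxzh d a b) := by unfold mxzh; infer_instance

/-! ## densities -/

theorem lintegral_fin_prod {n : ℕ} {E : Type*} [MeasurableSpace E] (μ : Fin n → Measure E)
    [∀ i, SigmaFinite (μ i)] (f : Fin n → E → ℝ≥0∞) (hf : ∀ i, Measurable (f i)) :
    ∫⁻ x : Fin n → E, ∏ i, f i (x i) ∂(Measure.pi μ) = ∏ i, ∫⁻ x, f i x ∂(μ i) := by
  induction n with
  | zero => simp
  | succ n n_ih =>
      calc
        _ = ∫⁻ x : E × (Fin n → E),
            f 0 x.1 * ∏ i : Fin n, f (Fin.succ i) (x.2 i)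
            ∂((μ 0).prod (Measure.pi (fun i ↦ μ i.succ))) := by
          rw [← ((measurePreserving_piFinSuccAbove μ 0).symm).lintegral_comp_emb
            (MeasurableEquiv.measurableEmbedding _)]
          simp_rw [MeasurableEquiv.piFinSuccAbove_symm_apply, Fin.insertNthEquiv,
            Fin.prod_univ_succ, Fin.insertNth_zero, Equiv.coe_fn_mk, Fin.cons_succ,
            Fin.zero_succAbove, cast_eq, Fin.cons_zero]
        _ = (∫⁻ x, f 0 x ∂μ 0)
            * ∏ i : Fin n, ∫⁻ (x : E), f (Fin.succ i) x ∂(μ i.succ) := by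
          rw [← n_ih (fun i => μ i.succ) (fun i => f i.succ) (fun i => hf _)]
          exact lintegral_prod_mul (hf 0).aemeasurable (Finset.measurable_prod _ (fun i _ =>
            (hf _).comp (measurable_pi_apply i))).aemeasurable
        _ = ∏ i, ∫⁻ x, f i x ∂(μ i) := by rw [Fin.prod_univ_succ]

theorem lintegral_fintype_prod {ι E : Type*} [Fintype ι] [MeasurableSpace E]
    (μ : ι → Measure E) [∀ i, SigmaFinite (μ i)] (f : ι → E → ℝ≥0∞)
    (hf : ∀ i, Measurable (f i)) :
    ∫⁻ x : ι → E, ∏ i, f i (x i) ∂(Measure.pi μ) = ∏ i, ∫⁻ x, f i x ∂(μ i) := by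
  let e := (Fintype.equivFin ι).symm
  rw [← (measurePreserving_piCongrLeft _ e).lintegral_comp_emb
    (MeasurableEquiv.measurableEmbedding _)]
  simp_rw [← e.prod_comp, MeasurableEquiv.coe_piCongrLeft, Equiv.piCongrLeft_apply_apply]
  exact lintegral_fin_prod (fun i => μ (e i)) (fun i => f (e i)) (fun i => hf _)

theorem pi_withDensity {ι E : Type*} [Fintype ι] [MeasurableSpace E] (ν : Measure E)
    [SigmaFinite ν] (g : E → ℝ≥0∞) (hg : Measurable g) [SigmaFinite (ν.withDensity g)] :
    Measure.pi (fun _ : ι => ν.withDensity g) =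
      (Measure.pi (fun _ : ι => ν)).withDensity (fun y => ∏ i, g (y i)) := by
  apply Measure.pi_eq
  intro s hs
  rw [withDensity_apply _ (MeasurableSet.univ_pi hs), Measure.restrict_pi_pi,
    lintegral_fintype_prod _ _ (fun _ => hg)]
  apply Finset.prod_congr rfl
  intro i _
  rw [withDensity_apply _ (hs i)]

/-- the standard Gaussian density on `κ → ℝ`. -/
noncomputable def gden (κ : Type) [Fintype κ] (x : κ → ℝ) : ℝ :=
  (Real.sqrt (2 * Real.pi))⁻¹ ^ (Fintype.card κ) * Real.exp (-(∑ i, x i ^ 2) / 2)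

theorem gden_pos (κ : Type) [Fintype κ] (x : κ → ℝ) : 0 < gden κ x := by
  unfold gden
  positivity

theorem gden_continuous (κ : Type) [Fintype κ] : Continuous (gden κ) := by
  unfold gden
  fun_prop

theorem gden_measurable (κ : Type) [Fintype κ] : Measurable (gden κ) :=
  (gden_continuous κ).measurable

theorem G1_eq : G1 = (volume : Measure ℝ).withDensity
    (fun y => ENNReal.ofReal ((Real.sqrt (2 * Real.pi))⁻¹ * Real.exp (-(y ^ 2) / 2))) := by
  unfold G1
  rw [gaussianReal_of_var_ne_zero 0 one_ne_zero]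
  congr 1
  funext y
  rw [gaussianPDF_def, gaussianPDFReal_def]
  simp

theorem gv_eq (κ : Type) [Fintype κ] :
    gv κ = (volume : Measure (κ → ℝ)).withDensity (fun x => ENNReal.ofReal (gden κ x)) := by
  unfold gv
  have hm : Measurable (fun y : ℝ => ENNReal.ofReal ((Real.sqrt (2 * Real.pi))⁻¹ *
      Real.exp (-(y ^ 2) / 2))) := by fun_prop
  have : SigmaFinite ((volume : Measure ℝ).withDensity
    (fun y => ENNReal.ofReal ((Real.sqrt (2 * Real.pi))⁻¹ * Real.exp (-(y ^ 2) / 2)))) := by
    rw [← G1_eq]; infer_instance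
  rw [G1_eq, pi_withDensity _ _ hm, volume_pi]
  congr 1
  funext y
  rw [← ENNReal.ofReal_prod_of_nonneg (fun i _ => by positivity)]
  congr 1
  rw [Finset.prod_mul_distrib, Finset.prod_const, Finset.card_univ, ← Real.exp_sum]
  unfold gden
  congr 2
  rw [← Finset.sum_div, Finset.sum_neg_distrib]

theorem gp_eq (κ : Type) [Fintype κ] (d : ℕ) :
    gp κ d = (volume : Measure (κ → Fin d → ℝ)).withDensity
      (fun x => ENNReal.ofReal (∏ i, gden (Fin d) (x i))) := by
  unfold gp
  have hm : Measurable (fun y : Fin d → ℝ => ENNReal.ofReal (gden (Fin d) y)) :=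
    (gden_measurable _).ennreal_ofReal
  have : SigmaFinite ((volume : Measure (Fin d → ℝ)).withDensity
    (fun y : Fin d → ℝ => ENNReal.ofReal (gden (Fin d) y))) := by
    rw [← gv_eq]; infer_instance
  rw [gv_eq, pi_withDensity _ _ hm, volume_pi]
  congr 1
  funext y
  rw [← ENNReal.ofReal_prod_of_nonneg (fun i _ => (gden_pos _ _).le)]

theorem integral_gv {κ : Type} [Fintype κ] {E : Type*} [NormedAddCommGroup E] [NormedSpace ℝ E]
    (f : (κ → ℝ) → E) : ∫ x, f x ∂(gv κ) = ∫ x, gden κ x • f x := by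
  rw [gv_eq, integral_withDensity_eq_integral_toReal_smul
    (gden_measurable κ).ennreal_ofReal (by simp)]
  congr 1
  funext x
  rw [ENNReal.toReal_ofReal (gden_pos κ x).le]

theorem integral_gp {κ : Type} [Fintype κ] {d : ℕ} {E : Type*} [NormedAddCommGroup E]
    [NormedSpace ℝ E] (f : (κ → Fin d → ℝ) → E) :
    ∫ x, f x ∂(gp κ d) = ∫ x, (∏ i, gden (Fin d) (x i)) • f x := by
  have hm : Measurable (fun x : κ → Fin d → ℝ => ∏ i, gden (Fin d) (x i)) :=
    Finset.measurable_prod _ (fun i _ => (gden_measurable _).comp (measurable_pi_apply i))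
  rw [gp_eq, integral_withDensity_eq_integral_toReal_smul hm.ennreal_ofReal (by simp)]
  congr 1
  funext x
  rw [ENNReal.toReal_ofReal (Finset.prod_nonneg fun i _ => (gden_pos _ _).le)]

theorem lintegral_gv {κ : Type} [Fintype κ] (f : (κ → ℝ) → ℝ≥0∞) (hf : Measurable f) :
    ∫⁻ x, f x ∂(gv κ) = ∫⁻ x, ENNReal.ofReal (gden κ x) * f x := by
  rw [gv_eq, lintegral_withDensity_eq_lintegral_mul _ (gden_measurable κ).ennreal_ofReal hf]
  rfl

theorem gv_absolutelyContinuous (κ : Type) [Fintype κ] :
    gv κ ≪ (volume : Measure (κ → ℝ)) := by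
  rw [gv_eq]; exact withDensity_absolutelyContinuous _ _

theorem gp_absolutelyContinuous (κ : Type) [Fintype κ] (d : ℕ) :
    gp κ d ≪ (volume : Measure (κ → Fin d → ℝ)) := by
  rw [gp_eq]; exact withDensity_absolutelyContinuous _ _

theorem absolutelyContinuous_gv (κ : Type) [Fintype κ] :
    (volume : Measure (κ → ℝ)) ≪ gv κ := by
  rw [gv_eq]
  apply withDensity_absolutelyContinuous' (gden_measurable κ).ennreal_ofReal.aemeasurable
  filter_upwards with x
  simpa using gden_pos κ x

/-! ## measurability -/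

theorem hom_zero {d : ℕ} (x : Fin d → ℝ) : hom x 0 = 1 := rfl

theorem hom_succ {d : ℕ} (x : Fin d → ℝ) (c : Fin d) : hom x c.succ = x c := rfl

theorem continuous_hom {d : ℕ} : Continuous (hom (d := d)) := by
  refine continuous_pi fun i => ?_
  refine Fin.cases ?_ (fun c => ?_) i
  · exact continuous_const
  · exact continuous_apply c

theorem BM_apply {d : ℕ} (x : Fin (d + 1) → Fin d → ℝ) (i j : Fin (d + 1)) :
    BM x i j = hom (x i) j := rfl

theorem continuous_BM {d : ℕ} : Continuous (BM (d := d)) := by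
  refine continuous_matrix fun i j => ?_
  exact (continuous_apply j).comp (continuous_hom.comp (continuous_apply i))

theorem continuous_det_BM {d : ℕ} :
    Continuous (fun x : Fin (d + 1) → Fin d → ℝ => (BM x).det) :=
  continuous_BM.matrix_det

theorem measurable_inv_BM {d : ℕ} (i j : Fin (d + 1)) :
    Measurable (fun x : Fin (d + 1) → Fin d → ℝ => (BM x)⁻¹ i j) := by
  have h : (fun x : Fin (d + 1) → Fin d → ℝ => (BM x)⁻¹ i j) =
      fun x => (BM x).det⁻¹ * (BM x).adjugate i j := by
    funext x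
    rw [Matrix.inv_def, Ring.inverse_eq_inv', Matrix.smul_apply, smul_eq_mul]
  rw [h]
  exact (continuous_det_BM.measurable.inv).mul
    (((continuous_BM.matrix_adjugate).matrix_elem i j).measurable)

theorem measurable_bary {d : ℕ} :
    Measurable (fun q : (Fin (d + 1) → Fin d → ℝ) × (Fin d → ℝ) => bary q.1 q.2) := by
  refine measurable_pi_lambda _ fun j => ?_
  have h : (fun q : (Fin (d + 1) → Fin d → ℝ) × (Fin d → ℝ) => bary q.1 q.2 j) =
      fun q => ∑ i, hom q.2 i * (BM q.1)⁻¹ i j := by
    funext q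
    simp [bary, Matrix.vecMul, dotProduct]
  rw [h]
  refine Finset.measurable_sum _ fun i _ => ?_
  exact (((continuous_apply i).comp (continuous_hom.comp continuous_snd)).measurable).mul
    ((measurable_inv_BM i j).comp measurable_fst)

theorem measurable_gco {d : ℕ} :
    Measurable (fun q : (Fin (d + 1) → Fin d → ℝ) × (Fin (d + 1) → ℝ) => gco q.1 q.2) := by
  refine measurable_pi_lambda _ fun j => ?_
  have h : (fun q : (Fin (d + 1) → Fin d → ℝ) × (Fin (d + 1) → ℝ) => gco q.1 q.2 j) =
      fun q => ∑ i, (BM q.1)⁻¹ j i * q.2 i := by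
    funext q
    simp [gco, Matrix.mulVec, dotProduct]
  rw [h]
  refine Finset.measurable_sum _ fun i _ => ?_
  exact ((measurable_inv_BM j i).comp measurable_fst).mul
    (((continuous_apply i).comp continuous_snd).measurable)

theorem measurableSet_pat {n : ℕ} (j : ℕ) : MeasurableSet {m : Fin n → ℝ | pat j m} := by
  have h : {m : Fin n → ℝ | pat j m} =
      (⋂ i : Fin n, {m : Fin n → ℝ | (i : ℕ) < j → m i < 0}) ∩
      ⋂ i : Fin n, {m : Fin n → ℝ | j ≤ (i : ℕ) → 0 < m i} := by
    ext m
    simp [pat]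
  rw [h]
  refine (MeasurableSet.iInter fun i => ?_).inter (MeasurableSet.iInter fun i => ?_)
  · by_cases hi : (i : ℕ) < j
    · simp only [hi, forall_const]
      exact measurableSet_lt (measurable_pi_apply i) measurable_const
    · simp [hi]
  · by_cases hi : j ≤ (i : ℕ)
    · simp only [hi, forall_const]
      exact measurableSet_lt measurable_const (measurable_pi_apply i)
    · simp [hi]

theorem measurableSet_pat_bary {d : ℕ} (j : ℕ) :
    MeasurableSet {q : (Fin (d + 1) → Fin d → ℝ) × (Fin d → ℝ) | pat j (bary q.1 q.2)} :=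
  measurable_bary (measurableSet_pat j)

theorem continuous_sd {d : ℕ} : Continuous (sd (d := d)) := by
  unfold sd
  refine Continuous.div (continuous_apply 0) ?_ ?_
  · fun_prop
  · intro p
    have : 0 < 1 + ∑ c : Fin d, p c.succ ^ 2 := by positivity
    exact (Real.sqrt_pos.2 this).ne'

theorem monotone_Phi : Monotone Phi := by
  intro s t hst
  unfold Phi
  exact measureReal_mono (Set.Iic_subset_Iic.2 hst)

theorem measurable_Phi : Measurable Phi := monotone_Phi.measurable

theorem Phi_nonneg (t : ℝ) : 0 ≤ Phi t := measureReal_nonneg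

theorem Phi_le_one (t : ℝ) : Phi t ≤ 1 := measureReal_le_one

theorem measurable_chi (D k : ℕ) : Measurable (chi D k) := by
  unfold chi
  exact ((measurable_Phi.comp measurable_neg).pow_const k).mul (measurable_Phi.pow_const _)

theorem chi_nonneg (D k : ℕ) (t : ℝ) : 0 ≤ chi D k t := by
  unfold chi
  exact mul_nonneg (pow_nonneg (Phi_nonneg _) _) (pow_nonneg (Phi_nonneg _) _)

theorem chi_le_one (D k : ℕ) (t : ℝ) : chi D k t ≤ 1 := by
  unfold chi
  exact mul_le_one₀ (pow_le_one₀ (Phi_nonneg _) (Phi_le_one _))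
    (pow_nonneg (Phi_nonneg _) _) (pow_le_one₀ (Phi_nonneg _) (Phi_le_one _))

end Pool.Agent.K1H9.RP
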