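import Pool.Agent.K1H9.RP.Main
import Pool.Agent.K1H97.RP.TF2
import Pool.Agent.K1H97.RP.QJ
import Pool.Agent.K1H16.RP.QP

/-!
# Main theorem for MP_bc6d74_co
-/

open MeasureTheory ProbabilityTheory Matrix
open scoped BigOperators ENNReal

namespace Pool.Agent.K1H9.RP

theorem main (d N : ℕ) (hd : 1 ≤ d)
    (hN : d + 2 ≤ N) (A A' : Finset (Fin N)) (h1 : A.card < A'.card)
    (h2 : A'.card ≤ (A'ᶜ).card) : radonProb d N A < radonProb d N A' :=
  main_of Pool.Agent.K1H97.RP.t_TF2 Pool.Agent.K1H97.RP.t_QJ Pool.Agent.K1H16.RP.t_QP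
    d N hd hN A A' h1 h2

end Pool.Agent.K1H9.RP
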