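import Pool.Agent.K1H9.RP.Asm
import Pool.Agent.K1H65.RP.TF
import Pool.Agent.K1H24.RP.Tau
import Pool.Agent.K1H67.RP.Fin

/-!
# Main theorem for MP_bc6d74_co, from the last pieces
-/

open MeasureTheory ProbabilityTheory Matrix
open scoped BigOperators ENNReal

namespace Pool.Agent.K1H9.RP

theorem main_of (hTF2 : S_TF2) (hQJ : S_QJ) (hQP : S_QP) (d N : ℕ) (hd : 1 ≤ d)
    (hN : d + 2 ≤ N) (A A' : Finset (Fin N)) (h1 : A.card < A'.card)
    (h2 : A'.card ≤ (A'ᶜ).card) : radonProb d N A < radonProb d N A' :=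
  Pool.Agent.K1H67.RP.t_FIN
    (step_of' (Pool.Agent.K1H65.RP.t_TF Pool.Agent.K1H60.RP.t_TF1 hTF2
      Pool.Agent.K1H37.RP.t_TF4) hQJ hQP Pool.Agent.K1H24.RP.t_TAU) d N hd hN A A' h1 h2

end Pool.Agent.K1H9.RP
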